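import Pool.Agent.W711.CR.Stm

/-!
# MP_434e52_an, part CR-MAT: facts about elementary matrices over `k[t]`
-/

set_option autoImplicit false

namespace Pool.Agent.W453.CRMAT

open Polynomial Pool.Agent.W711.CR

section

variable {k : Type} [Field k]

theorem comm_tv (i j l : Fin 3) (hij : i ≠ j) (hjl : j ≠ l) (hil : i ≠ l) (a b : k[X]) :
    tv i l hil (a * b) * tv j l hjl b * tv i j hij a = tv i j hij a * tv j l hjl b := by
  apply LinearEquiv.ext
  intro v
  simp only [LinearEquiv.mul_apply, tv_apply]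
  funext m
  simp only [Pi.add_apply, Pi.single_apply]
  by_cases h1 : m = i
  · subst h1
    simp [hij, hil, hjl.symm, hij.symm, hil.symm]
    ring
  · by_cases h2 : m = j
    · subst h2
      simp [hij, hil, hjl, hjl.symm, hij.symm, hil.symm]
    · simp [h1, h2]

theorem comm_mem (i j l : Fin 3) (hij : i ≠ j) (hjl : j ≠ l) (hil : i ≠ l) (a b : k[X])
    (ha : tv i j hij a ∈ Gam k) (hb : tv j l hjl b ∈ Gam k) :
    tv i l hil (a * b) ∈ Gam k := by
  have h := comm_tv i j l hij hjl hil a b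
  have h2 : tv i l hil (a * b) =
      tv i j hij a * tv j l hjl b * (tv i j hij a)⁻¹ * (tv j l hjl b)⁻¹ := by
    rw [eq_mul_inv_iff_mul_eq, eq_mul_inv_iff_mul_eq, h]
  rw [h2]
  exact mul_mem (mul_mem (mul_mem ha hb) (inv_mem ha)) (inv_mem hb)

theorem g01 (a : k) : tv 0 1 (by decide) (C a) ∈ Gam k :=
  Subgroup.subset_closure (Or.inl (Or.inl ⟨a, rfl⟩))

theorem g12 (a : k) : tv 1 2 (by decide) (C a) ∈ Gam k :=
  Subgroup.subset_closure (Or.inl (Or.inr ⟨a, rfl⟩))

theorem g20 (a : k) : tv 2 0 (by decide) (C a * X) ∈ Gam k :=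
  Subgroup.subset_closure (Or.inr ⟨a, rfl⟩)

theorem h01 : tv (k := k) 0 1 (by decide) 1 ∈ Gam k := by simpa using g01 (1 : k)

theorem h12 : tv (k := k) 1 2 (by decide) 1 ∈ Gam k := by simpa using g12 (1 : k)

theorem h20 : tv (k := k) 2 0 (by decide) X ∈ Gam k := by simpa using g20 (1 : k)

theorem h02 : tv (k := k) 0 2 (by decide) 1 ∈ Gam k := by
  simpa using comm_mem 0 1 2 (by decide) (by decide) (by decide) 1 1 h01 (h12 (k := k))

theorem h10 : tv (k := k) 1 0 (by decide) X ∈ Gam k := by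
  simpa using comm_mem 1 2 0 (by decide) (by decide) (by decide) 1 X h12 (h20 (k := k))

theorem h21 : tv (k := k) 2 1 (by decide) X ∈ Gam k := by
  simpa using comm_mem 2 0 1 (by decide) (by decide) (by decide) X 1 h20 (h01 (k := k))

/-- the six families -/
theorem fam (m : ℕ) : tv (k := k) 0 2 (by decide) (X ^ m) ∈ Gam k ∧
    tv (k := k) 1 2 (by decide) (X ^ m) ∈ Gam k ∧
    tv (k := k) 0 1 (by decide) (X ^ m) ∈ Gam k ∧
    tv (k := k) 1 0 (by decide) (X ^ (m + 1)) ∈ Gam k ∧
    tv (k := k) 2 0 (by decide) (X ^ (m + 1)) ∈ Gam k ∧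
    tv (k := k) 2 1 (by decide) (X ^ (m + 1)) ∈ Gam k := by
  induction m with
  | zero => exact ⟨by simpa using h02 (k := k), by simpa using h12 (k := k),
      by simpa using h01 (k := k), by simpa using h10 (k := k), by simpa using h20 (k := k),
      by simpa using h21 (k := k)⟩
  | succ m ih =>
    obtain ⟨a02, a12, a01, a10, a20, a21⟩ := ih
    have b01 : tv (k := k) 0 1 (by decide) (X ^ (m + 1)) ∈ Gam k := by
      have := comm_mem 0 2 1 (by decide) (by decide) (by decide) (X ^ m) X a02 (h21 (k := k))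
      rwa [← pow_succ] at this
    have b02 : tv (k := k) 0 2 (by decide) (X ^ (m + 1)) ∈ Gam k := by
      have := comm_mem 0 1 2 (by decide) (by decide) (by decide) (X ^ (m + 1)) 1 b01 (h12 (k := k))
      rwa [mul_one] at this
    have b12 : tv (k := k) 1 2 (by decide) (X ^ (m + 1)) ∈ Gam k := by
      have := comm_mem 1 0 2 (by decide) (by decide) (by decide) X (X ^ m) (h10 (k := k)) a02
      rwa [← pow_succ'] at this
    have b10 : tv (k := k) 1 0 (by decide) (X ^ (m + 1 + 1)) ∈ Gam k := by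
      have := comm_mem 1 2 0 (by decide) (by decide) (by decide) (X ^ (m + 1)) X b12 (h20 (k := k))
      rwa [← pow_succ] at this
    have b20 : tv (k := k) 2 0 (by decide) (X ^ (m + 1 + 1)) ∈ Gam k := by
      have := comm_mem 2 1 0 (by decide) (by decide) (by decide) X (X ^ (m + 1)) (h21 (k := k)) a10
      rwa [← pow_succ'] at this
    have b21 : tv (k := k) 2 1 (by decide) (X ^ (m + 1 + 1)) ∈ Gam k := by
      have := comm_mem 2 0 1 (by decide) (by decide) (by decide) (X ^ (m + 1 + 1)) 1 b20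
        (h01 (k := k))
      rwa [mul_one] at this
    exact ⟨b02, b12, b01, b10, b20, b21⟩

theorem part1 (i j : Fin 3) (h : i ≠ j) (m : ℕ) (hm : 1 ≤ m) :
    tv i j h (X ^ m : k[X]) ∈ Gam k := by
  obtain ⟨m, rfl⟩ : ∃ n, m = n + 1 := ⟨m - 1, by omega⟩
  obtain ⟨a02, a12, a01, a10, a20, a21⟩ := fam (k := k) m
  obtain ⟨b02, b12, b01, b10, b20, b21⟩ := fam (k := k) (m + 1)
  fin_cases i <;> fin_cases j
  · exact absurd rfl h
  · exact b01
  · exact b02
  · exact a10
  · exact absurd rfl h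
  · exact b12
  · exact a20
  · exact a21
  · exact absurd rfl h

theorem orb_mem (g : E3 k ≃ₗ[k[X]] E3 k) (hg : g ∈ Gam k) : g (e3 k) ∈ Orb k :=
  ⟨⟨g, hg⟩, rfl⟩

theorem e3_mem : e3 k ∈ Orb k := by
  simpa using orb_mem (1 : E3 k ≃ₗ[k[X]] E3 k) (one_mem _)

theorem part2 (j : Fin 3) (m : ℕ) (hm : 1 ≤ m) :
    (Pi.single j (X ^ m : k[X]) : E3 k) ∈ AddSubgroup.closure (Orb k) := by
  have key : ∀ (i : Fin 3) (hi : i ≠ 2) (c : k[X]), tv i 2 hi c ∈ Gam k →
      (Pi.single i c : E3 k) ∈ AddSubgroup.closure (Orb k) := by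
    intro i hi c hc
    have h1 := AddSubgroup.subset_closure (orb_mem _ hc)
    have h2 := AddSubgroup.subset_closure (e3_mem (k := k))
    have h3 := AddSubgroup.sub_mem _ h1 h2
    have h4 : tv i 2 hi c (e3 k) - e3 k = Pi.single i c := by
      rw [tv_apply]
      simp [e3]
    rwa [h4] at h3
  obtain ⟨i, hi⟩ : ∃ i, i = j := ⟨j, rfl⟩
  fin_cases j
  · exact key 0 (by decide) _ (part1 0 2 _ m hm)
  · exact key 1 (by decide) _ (part1 1 2 _ m hm)
  · -- `(1 + t^m E₃₂)(1 + E₂₃) e₃ = e₃ + e₂ + t^m e₃`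
    have h1 := AddSubgroup.subset_closure (orb_mem _ (mul_mem (part1 2 1 (by decide) m hm)
      (h12 (k := k))))
    have h2 := AddSubgroup.subset_closure (e3_mem (k := k))
    have h5 := key 1 (by decide) 1 h12
    have h3 := AddSubgroup.sub_mem _ (AddSubgroup.sub_mem _ h1 h2) h5
    have h4 : (tv 2 1 (by decide) (X ^ m) * tv 1 2 (by decide) 1 : E3 k ≃ₗ[k[X]] E3 k) (e3 k)
        - e3 k - (Pi.single 1 1 : E3 k) = (Pi.single 2 (X ^ m) : E3 k) := by
      rw [LinearEquiv.mul_apply, tv_apply, tv_apply]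
      simp [e3]
      abel
    rwa [h4] at h3

theorem part3 (n : E3 k →ₗ[k[X]] E3 k) (hn : ∀ v, n (n v) = 0)
    (h : ∀ (i j : Fin 3) (hij : i ≠ j), ∃ r : k[X], r ≠ 0 ∧ ∀ v, n (tv i j hij r (n v)) = 0) :
    n = 0 := by
  -- for `i ≠ j`: `(n v)_j • n e_i = 0`
  have h1 : ∀ (i j : Fin 3), i ≠ j → ∀ v l, n v j * n (Pi.single i 1) l = 0 := by
    intro i j hij v l
    obtain ⟨r, hr, h2⟩ := h i j hij
    have h3 := h2 v
    rw [tv_apply, map_add, hn, zero_add] at h3
    have h4 : (Pi.single i (r * n v j) : E3 k) = (r * n v j) • Pi.single i 1 := by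
      rw [← Pi.single_smul, smul_eq_mul, mul_one]
    rw [h4, map_smul] at h3
    have h5 := congrFun h3 l
    simp only [Pi.smul_apply, smul_eq_mul, Pi.zero_apply] at h5
    rw [mul_assoc] at h5
    exact (mul_eq_zero.mp h5).resolve_left hr
  -- columns vanish
  have h2 : ∀ i, n (Pi.single i 1) = 0 := by
    intro i
    by_contra h3
    obtain ⟨l, hl⟩ := Function.ne_iff.mp h3
    rw [Pi.zero_apply] at hl
    have h4 : ∀ j, i ≠ j → ∀ v, n v j = 0 := fun j hj v =>
      (mul_eq_zero.mp (h1 i j hj v l)).resolve_right hl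
    have h5 : l = i := by
      by_contra h6
      exact hl (h4 l (Ne.symm h6) _)
    subst h5
    have h6 : n (Pi.single l 1) = Pi.single l (n (Pi.single l 1) l) := by
      funext m
      by_cases hm : m = l
      · subst hm; simp
      · rw [Pi.single_eq_of_ne hm]
        exact h4 m (Ne.symm hm) _
    have h7 := congrFun (hn (Pi.single l 1)) l
    have h8 : (Pi.single l (n (Pi.single l 1) l) : E3 k) =
        (n (Pi.single l 1) l) • Pi.single l 1 := by
      rw [← Pi.single_smul, smul_eq_mul, mul_one]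
    rw [h6, h8, map_smul, Pi.smul_apply, smul_eq_mul, Pi.zero_apply] at h7
    rcases mul_eq_zero.mp h7 with h9 | h9
    · exact hl h9
    · exact hl h9
  apply LinearMap.pi_ext
  intro i x
  have h4 : (Pi.single i x : E3 k) = x • Pi.single i 1 := by
    rw [← Pi.single_smul, smul_eq_mul, mul_one]
  rw [h4, map_smul, h2, smul_zero, LinearMap.zero_apply]

end

/-- CR-MAT -/
theorem crMat : P_mat := fun _ _ _ => ⟨part1, part2, part3⟩

end Pool.Agent.W453.CRMAT
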