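import Mathlib
import Pool.Agent.W785.DF.Stubs

/-!
The condition (P2) for a force which is `-f` for large times.
-/

open MeasureTheory Set
open scoped ContDiff Pointwise Topology

namespace Pool.Agent.W453.P2

open H459R3.NS (V K3 Per)
open Pool.Agent.W785.DF

theorem vadd_dom (m : K3) :
    ((0 : ℝ), (fun i => (m i : ℝ) : V)) +ᵥ (Ici (0 : ℝ) ×ˢ (univ : Set V)) =
      Ici (0 : ℝ) ×ˢ (univ : Set V) := by
  ext z
  rw [mem_vadd_set_iff_neg_vadd_mem]
  simp

theorem itf_per {G : ℝ × V → V} (hG : ∀ z : ℝ × V, 0 ≤ z.1 → ∀ m : K3,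
    G (z.1, z.2 + fun i => (m i : ℝ)) = G z) (n : ℕ) {t : ℝ} (ht : 0 ≤ t) (x : V) (m : K3) :
    iteratedFDerivWithin ℝ n G (Ici 0 ×ˢ univ) (t, x + fun i => (m i : ℝ)) =
      iteratedFDerivWithin ℝ n G (Ici 0 ×ˢ univ) (t, x) := by
  have h1 := iteratedFDerivWithin_comp_add_right (𝕜 := ℝ) (f := G)
    (s := Ici (0 : ℝ) ×ˢ (univ : Set V)) n ((0 : ℝ), (fun i => (m i : ℝ) : V)) (t, x)
  rw [vadd_dom] at h1
  have h2 : ((t, x) : ℝ × V) + ((0 : ℝ), (fun i => (m i : ℝ) : V)) =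
      (t, x + fun i => (m i : ℝ)) := by
    ext <;> simp
  rw [h2] at h1
  rw [← h1]
  apply iteratedFDerivWithin_congr
  · intro z hz
    have h3 : z + ((0 : ℝ), (fun i => (m i : ℝ) : V)) = (z.1, z.2 + fun i => (m i : ℝ)) := by
      ext <;> simp
    show G (z + ((0 : ℝ), (fun i => (m i : ℝ) : V))) = G z
    rw [h3]
    exact hG z hz.1 m
  · exact ⟨ht, mem_univ _⟩

theorem main : S_p2 := by
  intro f g hf hg hper T hT
  refine ⟨hg, hper, ?_⟩
  intro m K
  obtain ⟨C1, hC1⟩ := hf.decay m K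
  set s : Set (ℝ × V) := Ici (0 : ℝ) ×ˢ (univ : Set V) with hs
  set G : ℝ × V → V := fun z => g z.1 z.2 with hGdef
  set F : ℝ × V → V := fun z => f z.1 z.2 with hFdef
  have hu : UniqueDiffOn ℝ s := (uniqueDiffOn_Ici 0).prod uniqueDiffOn_univ
  have hcont : ContinuousOn (iteratedFDerivWithin ℝ m G s) s :=
    hg.continuousOn_iteratedFDerivWithin (by exact_mod_cast le_top) hu
  have hcomp : IsCompact (Icc (0 : ℝ) (T + 1) ×ˢ Icc (0 : V) 1) := isCompact_Icc.prod isCompact_Icc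
  obtain ⟨C2, hC2⟩ := hcomp.exists_bound_of_continuousOn (f := iteratedFDerivWithin ℝ m G s)
    (hcont.mono (fun z hz => ⟨hz.1.1, mem_univ _⟩))
  have hGper : ∀ z : ℝ × V, 0 ≤ z.1 → ∀ k : K3, G (z.1, z.2 + fun i => (k i : ℝ)) = G z :=
    fun z hz k => (hper z.1 hz).int k z.2
  refine ⟨max C1 ((1 + (T + 1)) ^ K * C2), ?_⟩
  intro t ht x
  rcases lt_or_ge T t with h | h
  · refine le_trans ?_ (le_max_left _ _)
    have he : G =ᶠ[𝓝[s] ((t, x) : ℝ × V)] -F := by
      apply Filter.eventually_of_mem (U := {z : ℝ × V | T < z.1})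
      · apply mem_nhdsWithin_of_mem_nhds
        exact (isOpen_lt continuous_const continuous_fst).mem_nhds h
      · intro z hz
        exact hT z.1 (le_of_lt hz) z.2
    have h1 : iteratedFDerivWithin ℝ m G s (t, x) = iteratedFDerivWithin ℝ m (-F) s (t, x) :=
      he.iteratedFDerivWithin_eq (hT t h.le x) m
    have h2 : iteratedFDerivWithin ℝ m (-F) s (t, x) = -iteratedFDerivWithin ℝ m F s (t, x) :=
      iteratedFDerivWithin_neg_apply hu ⟨ht, mem_univ _⟩
    rw [h1, h2, norm_neg]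
    exact hC1 t ht x
  · refine le_trans ?_ (le_max_right _ _)
    have h1 := itf_per hGper m ht (fun i => Int.fract (x i)) (fun i => ⌊x i⌋)
    have h2 : ((fun i => Int.fract (x i)) + fun i => ((⌊x i⌋ : ℤ) : ℝ) : V) = x := by
      funext i
      simp [Int.fract_add_floor]
    rw [h2] at h1
    rw [h1]
    have h3 := hC2 (t, fun i => Int.fract (x i)) ⟨⟨ht, by linarith⟩, ⟨fun i => Int.fract_nonneg _,
      fun i => (Int.fract_lt_one _).le⟩⟩
    have h4 : (1 + t) ^ K ≤ (1 + (T + 1)) ^ K := by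
      apply pow_le_pow_left₀ (by linarith)
      linarith
    exact mul_le_mul h4 h3 (norm_nonneg _) (by apply pow_nonneg; linarith)

end Pool.Agent.W453.P2
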